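import Pool.Agent.Helper81_FineB.Wedge
import Pool.Agent.Helper16_FineB.Stmt
import Pool.Agent.Helper55_Fine.Grb

/-!
Existence of the wedge solution, in the form used by the assembly.
-/

namespace Pool.Agent.H16F.H81B

open Pool.Agent.H16F

/-- existence of the wedge solution for all exterior angles smaller than a right angle -/
theorem wedge_all : Pool.Agent.H16F.B.WedgeStatement :=
  wedgeB H16F.H55.grb

end Pool.Agent.H16F.H81B
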