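import Pool.Agent.Helper81_Fine.W1B

/-!
Facts on the diffraction kernel, for all exterior angles smaller than a right angle.
-/

namespace Pool.Agent.H16F.H81B

open MeasureTheory Complex Filter Topology Set Pool.Agent.H16F Pool.Agent.H16F.H81

theorem nu_pos {β : ℝ} (h0 : 0 < β) (h1 : β < Real.pi / 2) :
    1 / 2 < nu β ∧ nu β < 1 ∧ 2 * nu β * (Real.pi - β) = Real.pi := by
  have hp := Real.pi_pos
  have ha : 0 < Real.pi - β := by linarith
  unfold nu
  refine ⟨?_, ?_, ?_⟩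
  · rw [div_lt_div_iff₀ (by norm_num) (by positivity)]
    linarith
  · rw [div_lt_one (by positivity)]
    linarith
  · field_simp

theorem nu_trig {β : ℝ} (h0 : 0 < β) (h1 : β < Real.pi / 2) :
    Real.cos (2 * Real.pi * nu β) < 1 ∧ -1 < Real.cos (2 * Real.pi * nu β) ∧
      Real.sin (2 * Real.pi * nu β) < 0 ∧
      Real.cos (2 * nu β * β) = -Real.cos (2 * Real.pi * nu β) ∧
      Real.sin (2 * nu β * β) = -Real.sin (2 * Real.pi * nu β) := by
  obtain ⟨n1, n2, n3⟩ := nu_pos h0 h1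
  have hp := Real.pi_pos
  have a1 : Real.pi < 2 * Real.pi * nu β := by nlinarith only [h0, n3, n1]
  have a2 : 2 * Real.pi * nu β < Real.pi + Real.pi := by nlinarith only [h1, h0, n2]
  have hs : Real.sin (2 * Real.pi * nu β) < 0 := by
    have h2 : Real.sin (2 * Real.pi * nu β - Real.pi) = -Real.sin (2 * Real.pi * nu β) :=
      Real.sin_sub_pi _
    have h3 : 0 < Real.sin (2 * Real.pi * nu β - Real.pi) :=
      Real.sin_pos_of_pos_of_lt_pi (by linarith) (by linarith)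
    linarith
  have e : 2 * nu β * β = 2 * Real.pi * nu β - Real.pi := by linear_combination (-1 : ℝ) * n3
  refine ⟨?_, ?_, hs, ?_, ?_⟩
  · nlinarith only [hs, Real.sin_sq_add_cos_sq (2 * Real.pi * nu β)]
  · nlinarith only [hs, Real.sin_sq_add_cos_sq (2 * Real.pi * nu β)]
  · rw [e, Real.cos_sub_pi]
  · rw [e, Real.sin_sub_pi]

theorem kc_pos {β : ℝ} (h0 : 0 < β) (h1 : β < Real.pi / 2) : 0 < kc β := by
  obtain ⟨n1, n2, n3⟩ := nu_pos h0 h1
  obtain ⟨c1, c2, c3, c4, c5⟩ := nu_trig h0 h1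
  unfold kc
  have hp := Real.pi_pos
  exact mul_pos (div_pos (by linarith) hp) (by linarith)

/-- the shift of the contour -/
noncomputable def sB (β : ℝ) : ℝ :=
  ((Real.pi / 2 - β) + min (2 * (Real.pi / 2 - β)) (Real.pi / 2)) / 2

theorem sB_facts {β : ℝ} (h0 : 0 < β) (h1 : β < Real.pi / 2) :
    0 < sB β ∧ Real.pi / 2 - β < sB β ∧ sB β < Real.pi / 2 ∧ sB β < Real.pi - 2 * β := by
  have hp := Real.pi_pos
  have m1 : min (2 * (Real.pi / 2 - β)) (Real.pi / 2) ≤ 2 * (Real.pi / 2 - β) := min_le_left _ _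
  have m2 : min (2 * (Real.pi / 2 - β)) (Real.pi / 2) ≤ Real.pi / 2 := min_le_right _ _
  have m3 : Real.pi / 2 - β < min (2 * (Real.pi / 2 - β)) (Real.pi / 2) :=
    lt_min (by linarith) (by linarith)
  unfold sB
  refine ⟨?_, ?_, ?_, ?_⟩ <;> linarith

/-- the distance of the contour to the pole, measured by the cosine -/
noncomputable def gB (β : ℝ) : ℝ := Real.cos (2 * nu β * sB β) - Real.cos (2 * Real.pi * nu β)

theorem gB_pos {β : ℝ} (h0 : 0 < β) (h1 : β < Real.pi / 2) : 0 < gB β := by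
  obtain ⟨n1, n2, n3⟩ := nu_pos h0 h1
  obtain ⟨c1, c2, c3, c4, c5⟩ := nu_trig h0 h1
  obtain ⟨s1, s2, s3, s4⟩ := sB_facts h0 h1
  have hn : 0 < nu β := by linarith only [n1]
  have e : Real.cos (2 * Real.pi * nu β) = Real.cos (Real.pi - 2 * nu β * β) := by
    rw [Real.cos_pi_sub, c4, neg_neg]
  unfold gB
  rw [e, sub_pos]
  refine Real.cos_lt_cos_of_nonneg_of_le_pi (by positivity) ?_ ?_
  · have : 0 < nu β * β := mul_pos hn h0
    linarith
  · have : 2 * nu β * sB β < 2 * nu β * (Real.pi - 2 * β) :=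
      mul_lt_mul_of_pos_left s4 (by linarith)
    have e2 : 2 * nu β * (Real.pi - 2 * β) = Real.pi - 2 * nu β * β := by
      linear_combination n3
    linarith

theorem cos_ge {β : ℝ} (h0 : 0 < β) (h1 : β < Real.pi / 2) {y : ℝ} (hy : |y| ≤ sB β) :
    Real.cos (2 * nu β * sB β) ≤ Real.cos (2 * nu β * y) := by
  obtain ⟨n1, n2, n3⟩ := nu_pos h0 h1
  obtain ⟨s1, s2, s3, s4⟩ := sB_facts h0 h1
  have hn : 0 < 2 * nu β := by linarith only [n1]
  have e : Real.cos (2 * nu β * y) = Real.cos (2 * nu β * |y|) := by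
    rw [← Real.cos_abs, abs_mul, abs_of_pos hn]
  rw [e]
  refine Real.cos_le_cos_of_nonneg_of_le_pi (by positivity) ?_ ?_
  · have : 2 * nu β * sB β ≤ 2 * nu β * (Real.pi - β) :=
      mul_le_mul_of_nonneg_left (by linarith) hn.le
    linarith
  · exact mul_le_mul_of_nonneg_left hy hn.le

theorem norm_cosh_sub {z : ℂ} {c : ℝ} (hc : c ≤ 1) (hc1 : -1 ≤ c) (hz : c ≤ Real.cos z.im) :
    (Real.cos z.im - c) / 2 * Real.cosh z.re ≤ ‖Complex.cosh z - (c : ℂ)‖ := by
  refine abs_le_of_sq_le_sq' ?_ (norm_nonneg _) |>.2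
  rw [Complex.sq_norm, Complex.normSq_apply, cosh_re_im]
  simp only [sub_re, add_re, ofReal_re, mul_re, I_re, mul_zero, ofReal_im, I_im, mul_one, sub_self,
    add_zero, sub_im, add_im, mul_im, zero_add, sub_zero]
  have h1 := Real.cosh_sq z.re
  have h2 := Real.sin_sq_add_cos_sq z.im
  have h3 := Real.one_le_cosh z.re
  have h8 : (Real.cosh z.re * Real.cos z.im - c) * (Real.cosh z.re * Real.cos z.im - c)
      + Real.sinh z.re * Real.sin z.im * (Real.sinh z.re * Real.sin z.im)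
      = (Real.cosh z.re - c * Real.cos z.im) ^ 2 - (1 - c ^ 2) * (1 - Real.cos z.im ^ 2) := by
    have : Real.sinh z.re * Real.sin z.im * (Real.sinh z.re * Real.sin z.im)
        = Real.sinh z.re ^ 2 * Real.sin z.im ^ 2 := by ring
    have h5 : Real.sinh z.re ^ 2 = Real.cosh z.re ^ 2 - 1 := by linarith
    have h6 : Real.sin z.im ^ 2 = 1 - Real.cos z.im ^ 2 := by linarith
    rw [this, h5, h6]
    ring
  rw [h8]
  obtain ⟨t, ht⟩ : ∃ t, t = Real.cos z.im := ⟨_, rfl⟩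
  obtain ⟨C, hC⟩ : ∃ C, C = Real.cosh z.re := ⟨_, rfl⟩
  have t1 : t ≤ 1 := by rw [ht]; exact Real.cos_le_one _
  rw [← ht] at hz
  rw [← hC] at h3
  rw [← ht, ← hC]
  -- e = (t - c) / 2, with e ^ 2 ≤ (1 - c t) / 2
  have k1 : t - c ≤ 1 - c * t := by nlinarith only [hc1, t1]
  have k2 : 0 ≤ t - c := by linarith
  have k3 : 1 - c * t ≤ 2 := by nlinarith only [t1, hc1, hz]
  have k4 : ((t - c) / 2) ^ 2 ≤ (1 - c * t) / 2 := by nlinarith only [hc1, hz, t1]
  have k5 : (C - c * t) ^ 2 - (1 - c ^ 2) * (1 - t ^ 2) - ((t - c) / 2 * C) ^ 2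
      = (C - 1) * ((C + 1) * (1 - ((t - c) / 2) ^ 2) - 2 * (c * t)) + 3 / 4 * (t - c) ^ 2 := by ring
  have k6 : 0 ≤ (C + 1) * (1 - ((t - c) / 2) ^ 2) - 2 * (c * t) := by
    have : 0 ≤ 1 - ((t - c) / 2) ^ 2 := by linarith only [k3, k4]
    nlinarith only [k4, h3, k3]
  have k7 : 0 ≤ (C - 1) * ((C + 1) * (1 - ((t - c) / 2) ^ 2) - 2 * (c * t)) :=
    mul_nonneg (by linarith) k6
  linarith only [k7, sq_nonneg (t - c)]

/-- the constant in the bound of the kernel -/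
noncomputable def CK (β : ℝ) : ℝ := 4 * kc β / gB β

theorem CK_pos {β : ℝ} (h0 : 0 < β) (h1 : β < Real.pi / 2) : 0 < CK β := by
  have := kc_pos h0 h1
  have := gB_pos h0 h1
  exact div_pos (by linarith) (by linarith)

theorem den_norm {β : ℝ} (h0 : 0 < β) (h1 : β < Real.pi / 2) {z : ℂ} (hz : |z.im| ≤ sB β) :
    gB β / 2 * Real.cosh (2 * nu β * z.re)
      ≤ ‖Complex.cosh (2 * nu β * z) - (Real.cos (2 * Real.pi * nu β) : ℂ)‖ := by
  obtain ⟨c1, c2, c3, c4, c5⟩ := nu_trig h0 h1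
  have e2 : (2 * (nu β : ℂ)) = ((2 * nu β : ℝ) : ℂ) := by push_cast; rfl
  have him : (2 * (nu β : ℂ) * z).im = 2 * nu β * z.im := by rw [e2, Complex.im_ofReal_mul]
  have hre : (2 * (nu β : ℂ) * z).re = 2 * nu β * z.re := by rw [e2, Complex.re_ofReal_mul]
  have hg := gB_pos h0 h1
  have hcos := cos_ge h0 h1 hz
  unfold gB at hg
  have := norm_cosh_sub (z := 2 * nu β * z) c1.le c2.le (by rw [him]; linarith)
  rw [him, hre] at this
  refine le_trans (mul_le_mul_of_nonneg_right ?_ (Real.cosh_pos _).le) this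
  unfold gB
  linarith

theorem den_ne {β : ℝ} (h0 : 0 < β) (h1 : β < Real.pi / 2) {z : ℂ}
    (hz : |z.im| ≤ sB β) :
    Complex.cosh (2 * nu β * z) - (Real.cos (2 * Real.pi * nu β) : ℂ) ≠ 0 := by
  have := den_norm h0 h1 hz
  have hg := gB_pos h0 h1
  intro h
  rw [h, norm_zero] at this
  have h2 := Real.cosh_pos (2 * nu β * z.re)
  nlinarith only [this, hg, h2]

theorem Kc_norm {β : ℝ} (h0 : 0 < β) (h1 : β < Real.pi / 2) {z : ℂ}
    (hz : |z.im| ≤ sB β) :
    ‖Kc β z‖ ≤ CK β * Real.exp (-(2 * nu β * |z.re|)) := by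
  obtain ⟨n1, n2, n3⟩ := nu_pos h0 h1
  have hk := kc_pos h0 h1
  have hg := gB_pos h0 h1
  have h2 := den_norm h0 h1 hz
  have h3 := exp_abs_le_cosh (2 * nu β * z.re)
  have h4 : |2 * nu β * z.re| = 2 * nu β * |z.re| := by
    rw [abs_mul, abs_of_pos (by linarith : 0 < 2 * nu β)]
  rw [h4] at h3
  have h5 : 0 < Real.exp (2 * nu β * |z.re|) := Real.exp_pos _
  have h6 : gB β / 2 * (Real.exp (2 * nu β * |z.re|) / 2)
      ≤ ‖Complex.cosh (2 * nu β * z) - (Real.cos (2 * Real.pi * nu β) : ℂ)‖ :=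
    le_trans (mul_le_mul_of_nonneg_left h3 (by linarith only [hg])) h2
  unfold Kc CK
  rw [norm_div, Complex.norm_real, Real.norm_eq_abs, abs_of_pos hk, Real.exp_neg]
  calc kc β / ‖Complex.cosh (2 * nu β * z) - (Real.cos (2 * Real.pi * nu β) : ℂ)‖
      ≤ kc β / (gB β / 2 * (Real.exp (2 * nu β * |z.re|) / 2)) :=
        div_le_div_of_nonneg_left hk.le (by positivity) h6
    _ = _ := by field_simp; norm_num

theorem Kc_diff {β : ℝ} (h0 : 0 < β) (h1 : β < Real.pi / 2) {z : ℂ}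
    (hz : |z.im| ≤ sB β) : DifferentiableAt ℂ (Kc β) z := by
  unfold Kc
  refine (differentiableAt_const _).div ?_ (den_ne h0 h1 hz)
  fun_prop

theorem KK_pos {β : ℝ} (h0 : 0 < β) (h1 : β < Real.pi / 2) (z : ℝ) : 0 < KK β z := by
  obtain ⟨c1, c2, c3, c4, c5⟩ := nu_trig h0 h1
  rw [KK_eq]
  have := Real.one_le_cosh (2 * nu β * z)
  exact div_pos (kc_pos h0 h1) (by linarith)

theorem KK_le {β : ℝ} (h0 : 0 < β) (h1 : β < Real.pi / 2) (z : ℝ) :
    KK β z ≤ CK β * Real.exp (-(2 * nu β * |z|)) := by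
  have := Kc_norm h0 h1 (z := z) (by simpa using (sB_facts h0 h1).1.le)
  rw [Kc_ofReal, Complex.norm_real, Real.norm_eq_abs, abs_of_pos (KK_pos h0 h1 z), ofReal_re] at this
  exact this

theorem KK_anti {β : ℝ} (h0 : 0 < β) (h1 : β < Real.pi / 2) {x y : ℝ} (h : |x| ≤ |y|) :
    KK β y ≤ KK β x := by
  obtain ⟨n1, n2, n3⟩ := nu_pos h0 h1
  obtain ⟨c1, c2, c3, c4, c5⟩ := nu_trig h0 h1
  rw [KK_eq, KK_eq]
  have h2 : Real.cosh (2 * nu β * x) ≤ Real.cosh (2 * nu β * y) := by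
    rw [Real.cosh_le_cosh, abs_mul (2 * nu β) x, abs_mul (2 * nu β) y]
    exact mul_le_mul_of_nonneg_left h (abs_nonneg _)
  have h3 := Real.one_le_cosh (2 * nu β * x)
  exact div_le_div_of_nonneg_left (kc_pos h0 h1).le (by linarith) (by linarith)

theorem KK_lt {β : ℝ} (h0 : 0 < β) (h1 : β < Real.pi / 2) {x y : ℝ} (h : |x| < |y|) :
    KK β y < KK β x := by
  obtain ⟨n1, n2, n3⟩ := nu_pos h0 h1
  obtain ⟨c1, c2, c3, c4, c5⟩ := nu_trig h0 h1
  rw [KK_eq, KK_eq]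
  have h2 : Real.cosh (2 * nu β * x) < Real.cosh (2 * nu β * y) := by
    rw [Real.cosh_lt_cosh, abs_mul (2 * nu β) x, abs_mul (2 * nu β) y]
    have h3 : 0 < |2 * nu β| := abs_pos.2 (by intro h3; linarith only [n1, h3])
    exact mul_lt_mul_of_pos_left h h3
  have h3 := Real.one_le_cosh (2 * nu β * x)
  exact div_lt_div_of_pos_left (kc_pos h0 h1) (by linarith only [c1, h3]) (by linarith)

theorem KK_cont {β : ℝ} (h0 : 0 < β) (h1 : β < Real.pi / 2) : Continuous (KK β) := by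
  obtain ⟨c1, c2, c3, c4, c5⟩ := nu_trig h0 h1
  have : KK β = fun z => kc β / (Real.cosh (2 * nu β * z) - Real.cos (2 * Real.pi * nu β)) := by
    funext z; exact KK_eq β z
  rw [this]
  refine Continuous.div (by fun_prop) (by fun_prop) fun z => ?_
  have := Real.one_le_cosh (2 * nu β * z)
  linarith only [c1, this]

end Pool.Agent.H16F.H81B
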